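import Mathlib
import Pool.Agent.H220.K.Stm

/-!
# Non-pluripolarity
-/

set_option autoImplicit false

open Set Filter Topology Metric
open scoped ContDiff ComplexConjugate

namespace Pool.Agent.H935.K

open Pool.Agent.H220.K

theorem s_nonpp (hv : S_visc) (hb : S_bar) (hp : S_prop) (hc : S_chain) : S_nonpp := by
  intro K Ψ z₁ hΨ hbij hz hK hpp
  obtain ⟨V, u, hVo, hVc, hzV, hPSH, ⟨w, hwV, hw⟩, hKV⟩ := hpp z₁
  obtain ⟨N, hNK, hNo, hzN⟩ := _root_.eventually_nhds_iff.1 hK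
  -- the local inverse
  have hder : HasFDerivAt Ψ (fderiv ℂ Ψ z₁) z₁ :=
    (hΨ.differentiable (by norm_num)).differentiableAt.hasFDerivAt
  let L : E3 ≃L[ℂ] E3 := ContinuousLinearEquiv.ofBijective (fderiv ℂ Ψ z₁)
    (LinearMap.ker_eq_bot.2 (hbij z₁).1) (LinearMap.range_eq_top.2 (hbij z₁).2)
  have hL : HasFDerivAt Ψ (L : E3 →L[ℂ] E3) z₁ := by
    have : (L : E3 →L[ℂ] E3) = fderiv ℂ Ψ z₁ := ContinuousLinearMap.ext fun _ => rfl
    rw [this]
    exact hder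
  have hCD : ContDiffAt ℂ 2 Ψ z₁ := hΨ.contDiffAt
  let Φ : OpenPartialHomeomorph E3 E3 := hCD.toOpenPartialHomeomorph Ψ hL (by norm_num)
  have hΦ : ∀ z, Φ z = Ψ z := fun z => rfl
  have hzs : z₁ ∈ Φ.source := hCD.mem_toOpenPartialHomeomorph_source hL (by norm_num)
  have hleft : ∀ z ∈ Φ.source, Φ.symm (Ψ z) = z := fun z hz => Φ.left_inv hz
  have hright : ∀ x ∈ Φ.target, Ψ (Φ.symm x) = x := fun x hx => Φ.right_inv hx
  have hWo : IsOpen (Φ.target ∩ Φ.symm ⁻¹' (V ∩ N)) :=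
    Φ.symm.isOpen_inter_preimage (hVo.inter hNo)
  set W : Set E3 := Φ.target ∩ Φ.symm ⁻¹' (V ∩ N) with hW
  have hzW : Ψ z₁ ∈ W := by
    refine ⟨Φ.map_source hzs, ?_⟩
    show Φ.symm (Ψ z₁) ∈ V ∩ N
    rw [hleft z₁ hzs]
    exact ⟨hzV, hzN⟩
  have husc : UpperSemicontinuousOn (fun x => u (Φ.symm x)) W := by
    intro x hx y hy
    have h1 := hPSH.usc (Φ.symm x) hx.2.1 y hy
    have h2 : Tendsto Φ.symm (𝓝[W] x) (𝓝[V] (Φ.symm x)) := by
      refine tendsto_nhdsWithin_of_tendsto_nhds_of_eventually_within _ ?_ ?_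
      · exact (Φ.symm.continuousAt hx.1).tendsto.mono_left nhdsWithin_le_nhds
      · filter_upwards [self_mem_nhdsWithin] with x' hx'
        exact hx'.2.1
    exact h2.eventually h1
  have hvisc : Visc W (fun x => u (Φ.symm x)) := by
    intro x hx hne φ hφ hle ξ
    set z := Φ.symm x with hzdef
    have hxz : Ψ z = x := hright x hx.1
    have hzsrc : z ∈ Φ.source := Φ.map_target hx.1
    have hφ' : ContDiffAt ℝ 2 φ (Ψ z) := by rw [hxz]; exact hφ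
    have hΨz : ContDiffAt ℂ 2 Ψ z := hΨ.contDiffAt
    have hcomp : ContDiffAt ℝ 2 (fun y => φ (Ψ y)) z :=
      ContDiffAt.comp z hφ' (hΨz.restrict_scalars ℝ)
    have hev : ∀ᶠ y in 𝓝 z, u y ≤ ((φ (Ψ y) - φ (Ψ z) + (u z).toReal : ℝ) : EReal) := by
      have h1 : Tendsto Ψ (𝓝 z) (𝓝 x) := by
        have := hΨ.continuous.tendsto z
        rwa [hxz] at this
      filter_upwards [h1.eventually hle, Φ.open_source.mem_nhds hzsrc] with y hy hys
      rw [hleft y hys] at hy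
      rw [hxz]
      exact hy
    obtain ⟨ξ', hξ'⟩ := (hbij z).2 ξ
    have h := hv V u hVo hPSH z hx.2.1 hne (fun y => φ (Ψ y)) hcomp hev ξ'
    rw [hc.1 Ψ φ z ξ' hΨz hφ', hξ', hxz] at h
    exact h
  have hbar := hb W (fun x => u (Φ.symm x)) (Ψ z₁) hWo hzW hz husc
    (fun x hx => hPSH.ne_top _ hx.2.1)
    (fun x hx => hKV _ ⟨hNK _ hx.1.2.2 (by rw [hright x hx.1.1]; exact hx.2), hx.1.2.1⟩) hvisc
  have hbot : ∀ᶠ z in 𝓝 z₁, u z = ⊥ := by
    have h1 : Tendsto Ψ (𝓝 z₁) (𝓝 (Ψ z₁)) := hΨ.continuous.tendsto z₁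
    filter_upwards [h1.eventually hbar, Φ.open_source.mem_nhds hzs] with y hy hys
    rw [hleft y hys] at hy
    exact hy
  exact hw (hp V u hVo hVc hPSH ⟨z₁, hzV, hbot⟩ w hwV)

end Pool.Agent.H935.K
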